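import Mathlib

set_option autoImplicit false

namespace Pool.Agent.Results.MP_9d5c58_nt.Sparse

/-- the map `T` of the problem -/
def T (x : ℤ) : ℤ :=
  if x % 3 = 0 then 2 * x else if x % 3 = 1 then (7 * x + 2) / 3 else (x - 2) / 3

/-- the integers whose trajectory under `T` never meets a multiple of `3` -/
def S : Set ℤ := {x | ∀ k : ℕ, ¬ (3 : ℤ) ∣ T^[k] x}

theorem key (k : ℕ) : ∀ x y : ℤ, (∀ j < k, ¬ (3 : ℤ) ∣ T^[j] x) →
    (∀ j < k, ¬ (3 : ℤ) ∣ T^[j] y) → (∀ j < k, T^[j] x % 3 = T^[j] y % 3) →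
    (3 : ℤ) ^ k ∣ x - y := by
  induction k with
  | zero => intro x y _ _ _; simp
  | succ k ih =>
    intro x y hx hy h
    have h0 : x % 3 = y % 3 := by simpa using h 0 (by omega)
    have hx0 : ¬ (3 : ℤ) ∣ x := by simpa using hx 0 (by omega)
    have ih' := ih (T x) (T y)
      (fun j hj => by
        have := hx (j + 1) (by omega)
        rwa [Function.iterate_succ_apply] at this)
      (fun j hj => by
        have := hy (j + 1) (by omega)
        rwa [Function.iterate_succ_apply] at this)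
      (fun j hj => by
        have := h (j + 1) (by omega)
        rwa [Function.iterate_succ_apply, Function.iterate_succ_apply] at this)
    obtain ⟨c, hc⟩ := ih'
    rcases (by omega : x % 3 = 1 ∨ x % 3 = 2) with h1 | h1
    · have hTx : 3 * T x = 7 * x + 2 := by
        unfold T; rw [if_neg (by omega), if_pos h1]; omega
      have hTy : 3 * T y = 7 * y + 2 := by
        unfold T; rw [if_neg (by omega), if_pos (by omega)]; omega
      have h7 : 7 * (x - y) = 3 ^ (k + 1) * c := by rw [pow_succ]; linarith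
      have hco : IsCoprime ((3 : ℤ) ^ (k + 1)) 7 :=
        IsCoprime.pow_left ⟨-2, 1, by norm_num⟩
      exact hco.dvd_of_dvd_mul_left ⟨c, h7⟩
    · have hTx : 3 * T x = x - 2 := by
        unfold T; rw [if_neg (by omega), if_neg (by omega)]; omega
      have hTy : 3 * T y = y - 2 := by
        unfold T; rw [if_neg (by omega), if_neg (by omega)]; omega
      exact ⟨c, by rw [pow_succ]; linarith⟩

theorem count (a : ℤ) (k : ℕ) : (S ∩ Set.Ico a (a + 3 ^ k)).ncard ≤ 2 ^ k := by
  have h := Set.ncard_le_ncard_of_injOn (s := S ∩ Set.Ico a (a + 3 ^ k))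
    (t := (Set.univ : Set (Fin k → Bool)))
    (fun x => fun j : Fin k => decide (T^[(j : ℕ)] x % 3 = 1))
    (fun _ _ => Set.mem_univ _)
    (by
      rintro x ⟨hxS, hx1, hx2⟩ y ⟨hyS, hy1, hy2⟩ hxy
      have hd := key k x y (fun j _ => hxS j) (fun j _ => hyS j) (fun j hj => by
        have h1 := congrFun hxy ⟨j, hj⟩
        have h2 : (T^[j] x % 3 = 1) ↔ (T^[j] y % 3 = 1) := by
          simpa using h1
        have h3 := hxS j
        have h4 := hyS j
        omega)
      obtain ⟨c, hc⟩ := hd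
      have hp : (0 : ℤ) < 3 ^ k := by positivity
      have hc0 : c = 0 := by
        have l1 : (3 : ℤ) ^ k * c < 3 ^ k * 1 := by linarith
        have l2 : (3 : ℤ) ^ k * (-1) < 3 ^ k * c := by linarith
        have := lt_of_mul_lt_mul_left l1 hp.le
        have := lt_of_mul_lt_mul_left l2 hp.le
        omega
      rw [hc0] at hc
      linarith)
    (Set.toFinite _)
  refine h.trans ?_
  rw [Set.ncard_univ, Nat.card_eq_fintype_card]
  simp

theorem count_real (N : ℕ) (hN : 1 ≤ N) :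
    ((S ∩ Set.Icc (-(N : ℤ)) N).ncard : ℝ) ≤ 4 * (N : ℝ) ^ (Real.log 2 / Real.log 3) := by
  set k := Nat.log 3 N with hk
  have h1 : 3 ^ k ≤ N := Nat.pow_log_le_self 3 (by omega)
  have h2 : N < 3 ^ (k + 1) := Nat.lt_pow_succ_log_self (by norm_num) N
  have h2' : (N : ℤ) < 3 ^ (k + 1) := by exact_mod_cast h2
  have hsub : S ∩ Set.Icc (-(N : ℤ)) N ⊆
      (S ∩ Set.Ico (-(3 : ℤ) ^ (k + 1)) (-(3 : ℤ) ^ (k + 1) + 3 ^ (k + 1))) ∪
      (S ∩ Set.Ico (0 : ℤ) (0 + 3 ^ (k + 1))) := by
    rintro x ⟨hx, hx1, hx2⟩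
    rcases lt_or_ge x 0 with h | h
    · left; exact ⟨hx, by linarith, by linarith⟩
    · right; exact ⟨hx, h, by linarith⟩
  have hle : (S ∩ Set.Icc (-(N : ℤ)) N).ncard ≤ 2 ^ (k + 1) + 2 ^ (k + 1) := by
    refine (Set.ncard_le_ncard hsub ?_).trans ((Set.ncard_union_le _ _).trans
      (add_le_add (count _ _) (count _ _)))
    exact ((Set.finite_Ico _ _).inter_of_right _).union ((Set.finite_Ico _ _).inter_of_right _)
  have hpow : (2 : ℝ) ^ k ≤ (N : ℝ) ^ (Real.log 2 / Real.log 3) := by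
    have hl3 : 0 < Real.log 3 := Real.log_pos (by norm_num)
    have hl2 : 0 < Real.log 2 := Real.log_pos (by norm_num)
    have e1 : (2 : ℝ) ^ k = ((3 : ℝ) ^ k) ^ (Real.log 2 / Real.log 3) := by
      rw [← Real.rpow_natCast 3 k, ← Real.rpow_mul (by norm_num),
        Real.rpow_def_of_pos (by norm_num : (0 : ℝ) < 3)]
      have : Real.log 3 * ((k : ℝ) * (Real.log 2 / Real.log 3)) = Real.log 2 * k := by
        field_simp
      rw [this, ← Real.rpow_def_of_pos (by norm_num : (0 : ℝ) < 2), Real.rpow_natCast]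
    rw [e1]
    exact Real.rpow_le_rpow (by positivity) (by exact_mod_cast h1) (by positivity)
  calc ((S ∩ Set.Icc (-(N : ℤ)) N).ncard : ℝ) ≤ ((2 ^ (k + 1) + 2 ^ (k + 1) : ℕ) : ℝ) := by
        exact_mod_cast hle
    _ = 4 * 2 ^ k := by push_cast; ring
    _ ≤ 4 * (N : ℝ) ^ (Real.log 2 / Real.log 3) := by linarith

/-- the integers whose trajectory under `T` never meets a multiple of 3 are sparse: at most
`2^k` of them in any window of `3^k` consecutive integers, hence at most `4 N^{log 2/log 3}`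
of absolute value at most `N`. -/
theorem result :
    (∀ (a : ℤ) (k : ℕ), (S ∩ Set.Ico a (a + 3 ^ k)).ncard ≤ 2 ^ k) ∧
    (∀ N : ℕ, 1 ≤ N →
      ((S ∩ Set.Icc (-(N : ℤ)) N).ncard : ℝ) ≤ 4 * (N : ℝ) ^ (Real.log 2 / Real.log 3)) :=
  ⟨count, count_real⟩

end Pool.Agent.Results.MP_9d5c58_nt.Sparse
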